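import Mathlib

/-!
# Kummer theory for several cube roots: linear independence

If `F` contains the cube roots of unity, `E / F` is normal and separable, and `g_i ∈ E^*` have
cubes in `F` and pairwise quotients outside `F`, then the `g_i` are linearly independent over `F`.
-/

namespace Pool.Agent.T9h8.NA

/-- Elements with cubes in `F` which are pairwise non-proportional over `F` are linearly
independent over `F`. -/
theorem linearIndependent_of_cubes {F E : Type*} [Field F] [Field E] [Algebra F E] [Normal F E]
    [Algebra.IsSeparable F E] (hcube : ∀ z : E, z ^ 3 = 1 → ∃ c : F, algebraMap F E c = z)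
    {ι : Type*} (g : ι → E) (hg0 : ∀ i, g i ≠ 0) (hg3 : ∀ i, ∃ c : F, g i ^ 3 = algebraMap F E c)
    (hne : ∀ i j, i ≠ j → ∀ c : F, g i ≠ algebraMap F E c * g j) : LinearIndependent F g := by
  classical
  have key : ∀ n : ℕ, ∀ s : Finset ι, s.card = n → ∀ c : ι → F, ∑ i ∈ s, c i • g i = 0 →
      ∀ i ∈ s, c i = 0 := by
    intro n
    induction n with
    | zero =>
      intro s hs c _ i hi
      rw [Finset.card_eq_zero] at hs
      subst hs
      simp at hi
    | succ n ih =>
      intro s hs c hc i₀ hi₀
      by_contra hci
      have hsplit : ∀ c : ι → F, c i₀ • g i₀ + ∑ i ∈ s.erase i₀, c i • g i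
          = ∑ i ∈ s, c i • g i := fun c => Finset.add_sum_erase s (fun i => c i • g i) hi₀
      have hcard : (s.erase i₀).card = n := by
        rw [Finset.card_erase_of_mem hi₀, hs]; rfl
      by_cases hall : ∀ j ∈ s.erase i₀, c j = 0
      · have h0 : ∑ i ∈ s.erase i₀, c i • g i = 0 :=
          Finset.sum_eq_zero fun j hj => by rw [hall j hj, zero_smul]
        have h1 := hsplit c
        rw [h0, add_zero, hc] at h1
        rcases smul_eq_zero.1 h1 with h | h
        · exact hci h
        · exact hg0 i₀ h
      · push Not at hall
        obtain ⟨j₀, hj₀, hcj⟩ := hall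
        have hji : j₀ ≠ i₀ := Finset.ne_of_mem_erase hj₀
        -- the automorphism
        have hnot : g j₀ / g i₀ ∉ (⊥ : Subalgebra F E) := by
          intro hmem
          obtain ⟨c', hc'⟩ := Algebra.mem_bot.1 hmem
          refine hne j₀ i₀ hji c' ?_
          rw [hc', div_mul_cancel₀ _ (hg0 i₀)]
        obtain ⟨y, hy, hconj⟩ := (notMem_iff_exists_ne_and_isConjRoot
          (Algebra.IsSeparable.isSeparable F (g j₀ / g i₀))
          (Normal.splits inferInstance (g j₀ / g i₀))).1 hnot
        obtain ⟨σ, hσ⟩ := hconj.exists_algEquiv
        -- `σ y = x`; use the inverse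
        have hτ : σ.symm (g j₀ / g i₀) = y := by rw [← hσ, AlgEquiv.symm_apply_apply]
        have hz : ∀ i, ∃ z : F, σ.symm (g i) = z • g i := by
          intro i
          obtain ⟨c', hc'⟩ := hg3 i
          have h3 : (σ.symm (g i)) ^ 3 = g i ^ 3 := by
            rw [← map_pow, hc', AlgEquiv.commutes]
          have h1 : (σ.symm (g i) / g i) ^ 3 = 1 := by
            rw [div_pow, h3, div_self (pow_ne_zero 3 (hg0 i))]
          obtain ⟨z, hz⟩ := hcube _ h1
          exact ⟨z, by rw [Algebra.smul_def, hz, div_mul_cancel₀ _ (hg0 i)]⟩
        choose z hz using hz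
        have h2 : ∑ i ∈ s, (c i * z i) • g i = 0 := by
          have := congrArg σ.symm hc
          rw [map_sum, map_zero] at this
          rw [← this]
          refine Finset.sum_congr rfl fun i _ => ?_
          rw [map_smul, hz i, smul_smul]
        have h3 : ∑ i ∈ s.erase i₀, (c i * (z i - z i₀)) • g i = 0 := by
          have e1 := hsplit fun i => c i * (z i - z i₀)
          have e2 : ∑ i ∈ s, (c i * (z i - z i₀)) • g i = 0 := by
            have : ∀ i ∈ s, (c i * (z i - z i₀)) • g i
                = (c i * z i) • g i - z i₀ • (c i • g i) := by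
              intro i _
              rw [smul_smul, ← sub_smul]
              congr 1
              ring
            rw [Finset.sum_congr rfl this, Finset.sum_sub_distrib, h2, ← Finset.smul_sum, hc,
              smul_zero, sub_zero]
          rw [e2] at e1
          simpa using e1
        have h4 := ih _ hcard _ h3 j₀ hj₀
        rcases mul_eq_zero.1 h4 with h | h
        · exact hcj h
        · apply hy
          rw [← hτ, map_div₀, hz j₀, hz i₀, sub_eq_zero.1 h, Algebra.smul_def, Algebra.smul_def]
          have hzi : algebraMap F E (z i₀) ≠ 0 := by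
            intro h0
            have := hz i₀
            rw [Algebra.smul_def, h0, zero_mul] at this
            exact hg0 i₀ ((map_eq_zero σ.symm).1 this)
          rw [mul_div_mul_left _ _ hzi]
  rw [linearIndependent_iff']
  intro s c hc i hi
  exact key _ s rfl c hc i hi

/-- In an extension of a field of characteristic `≠ 3`... the cube roots of unity are those of an
algebraically closed subfield. -/
theorem cube_root_of_one {K E : Type*} [Field K] [IsAlgClosed K] [Field E] [Algebra K E] (z : E)
    (hz : z ^ 3 = 1) : ∃ c : K, algebraMap K E c = z := by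
  have hne : (Polynomial.X ^ 2 + Polynomial.X + 1 : Polynomial K).degree ≠ 0 := by
    have : (Polynomial.X ^ 2 + Polynomial.X + 1 : Polynomial K).degree = 2 := by
      compute_degree!
    rw [this]; decide
  obtain ⟨w, hw⟩ := IsAlgClosed.exists_root (Polynomial.X ^ 2 + Polynomial.X + 1 : Polynomial K) hne
  have hw' : w ^ 2 + w + 1 = 0 := by simpa [Polynomial.IsRoot] using hw
  have hwE : (algebraMap K E w) ^ 2 + algebraMap K E w + 1 = 0 := by
    have := congrArg (algebraMap K E) hw'
    simpa using this
  have hfac : (z - 1) * ((z - algebraMap K E w) * (z - (algebraMap K E w) ^ 2)) = 0 := by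
    linear_combination hz + (-(z - 1) * z * 1 + (z-1) * (algebraMap K E w - 1)) * hwE
  rcases mul_eq_zero.1 hfac with h | h
  · exact ⟨1, by rw [map_one]; exact (sub_eq_zero.1 h).symm⟩
  · rcases mul_eq_zero.1 h with h | h
    · exact ⟨w, (sub_eq_zero.1 h).symm⟩
    · exact ⟨w ^ 2, by rw [map_pow]; exact (sub_eq_zero.1 h).symm⟩

end Pool.Agent.T9h8.NA
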