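import Mathlib

/-!
# Linear forms in polynomial rings: primality, and products of powers up to cubes
-/

namespace Pool.Agent.T9h8.NA

open MvPolynomial

variable {K : Type*} [Field K] {τ : Type*} [Fintype τ]

/-- The linear form with coefficients `l`. -/
noncomputable def lf (l : τ → K) : MvPolynomial τ K := ∑ t, C (l t) * X t

theorem coeff_lf [DecidableEq τ] (l : τ → K) (t : τ) :
    (lf l).coeff (Finsupp.single t 1) = l t := by
  unfold lf
  rw [coeff_sum, Finset.sum_eq_single t]
  · rw [coeff_C_mul, coeff_X, if_pos rfl, mul_one]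
  · intro s _ hs
    rw [coeff_C_mul, coeff_X, if_neg, mul_zero]
    rwa [Finsupp.single_left_inj Nat.one_ne_zero]
  · simp

theorem lf_ne_zero {l : τ → K} (hl : l ≠ 0) : lf l ≠ 0 := by
  classical
  intro h
  apply hl
  funext t
  rw [← coeff_lf l t, h]; simp

theorem totalDegree_lf_le (l : τ → K) : (lf l).totalDegree ≤ 1 := by
  unfold lf
  apply totalDegree_finsetSum_le
  intro t _
  refine (totalDegree_mul _ _).trans ?_
  rw [totalDegree_C, totalDegree_X, zero_add]

theorem totalDegree_lf {l : τ → K} (hl : l ≠ 0) : (lf l).totalDegree = 1 := by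
  classical
  refine le_antisymm (totalDegree_lf_le l) ?_
  by_contra h
  have h0 : (lf l).totalDegree = 0 := by omega
  rw [totalDegree_eq_zero_iff_eq_C] at h0
  apply hl
  funext t
  rw [← coeff_lf l t, h0, coeff_C, if_neg]
  · rfl
  · intro h
    have := congrArg (fun f => f t) h
    simp at this

theorem irreducible_lf {l : τ → K} (hl : l ≠ 0) : Irreducible (lf l) := by
  classical
  refine irreducible_of_totalDegree_eq_one (totalDegree_lf hl) fun x hx => ?_
  obtain ⟨t, ht⟩ : ∃ t, l t ≠ 0 := by
    by_contra h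
    push Not at h
    exact hl (funext h)
  have h1 := hx (Finsupp.single t 1)
  rw [coeff_lf] at h1
  refine isUnit_iff_ne_zero.2 ?_
  rintro rfl
  exact ht (zero_dvd_iff.1 h1)

theorem prime_lf {l : τ → K} (hl : l ≠ 0) : Prime (lf l) :=
  UniqueFactorizationMonoid.irreducible_iff_prime.1 (irreducible_lf hl)

/-- If one linear form divides another nonzero one, they are proportional. -/
theorem proportional_of_dvd {l m : τ → K} (hl : l ≠ 0) (hm : m ≠ 0) (h : lf l ∣ lf m) :
    ∃ c : K, m = c • l := by
  classical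
  obtain ⟨q, hq⟩ := h
  have hq0 : q ≠ 0 := by
    rintro rfl
    rw [mul_zero] at hq
    exact lf_ne_zero hm hq
  have hd : (lf m).totalDegree = (lf l).totalDegree + q.totalDegree := by
    rw [hq, totalDegree_mul_of_isDomain (lf_ne_zero hl) hq0]
  rw [totalDegree_lf hl, totalDegree_lf hm] at hd
  have h0 : q.totalDegree = 0 := by omega
  rw [totalDegree_eq_zero_iff_eq_C] at h0
  refine ⟨coeff 0 q, ?_⟩
  funext t
  rw [← coeff_lf m t, hq, h0, mul_comm, coeff_C_mul, coeff_lf]
  simp

/-- Products of pairwise non-proportional linear forms with exponents in `{0,1,2}` differ by a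
cube only if the exponents agree. -/
theorem exponents_eq {V : Type*} [Fintype V] [DecidableEq V] (l : V → τ → K) (hl : ∀ v, l v ≠ 0)
    (hpair : ∀ v w, v ≠ w → ∀ c : K, l w ≠ c • l v) (a a' : V → Fin 3) (f g : MvPolynomial τ K)
    (hf : f ≠ 0) (hg : g ≠ 0)
    (h : f ^ 3 * ∏ v, lf (l v) ^ (a v : ℕ) = g ^ 3 * ∏ v, lf (l v) ^ (a' v : ℕ)) : a = a' := by
  funext v
  have hp : Prime (lf (l v)) := prime_lf (hl v)
  have hval : ∀ b : V → Fin 3, emultiplicity (lf (l v)) (∏ w, lf (l w) ^ (b w : ℕ))
      = ((b v : ℕ) : ℕ∞) := by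
    intro b
    rw [Finset.emultiplicity_prod hp, Finset.sum_eq_single v]
    · rw [emultiplicity_pow hp, FiniteMultiplicity.emultiplicity_self
        (FiniteMultiplicity.of_not_isUnit hp.not_unit hp.ne_zero), mul_one]
    · intro w _ hw
      rw [emultiplicity_pow hp]
      have : emultiplicity (lf (l v)) (lf (l w)) = 0 := by
        rw [emultiplicity_eq_zero]
        intro hd
        obtain ⟨c, hc⟩ := proportional_of_dvd (hl v) (hl w) hd
        exact hpair v w (Ne.symm hw) c hc
      rw [this, mul_zero]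
    · simp
  have hcong := congrArg (emultiplicity (lf (l v))) h
  rw [emultiplicity_mul hp, emultiplicity_mul hp, hval, hval, emultiplicity_pow hp,
    emultiplicity_pow hp] at hcong
  obtain ⟨m, hm⟩ : ∃ m : ℕ, emultiplicity (lf (l v)) f = m := by
    have := FiniteMultiplicity.of_not_isUnit hp.not_unit hf
    exact ⟨_, this.emultiplicity_eq_multiplicity⟩
  obtain ⟨m', hm'⟩ : ∃ m : ℕ, emultiplicity (lf (l v)) g = m := by
    have := FiniteMultiplicity.of_not_isUnit hp.not_unit hg
    exact ⟨_, this.emultiplicity_eq_multiplicity⟩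
  rw [hm, hm'] at hcong
  have h5 : 3 * m + (a v : ℕ) = 3 * m' + (a' v : ℕ) := by exact_mod_cast hcong
  have h6 := (a v).isLt
  have h7 := (a' v).isLt
  apply Fin.ext
  omega

end Pool.Agent.T9h8.NA
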