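import Pool.Agent.T9h29.NA.Defs
import Pool.Agent.T9h8.NA.Kummer
import Pool.Agent.T9h8.NA.Linear

/-!
# The coordinate ring `R` of the product of the cones is a domain
-/

namespace Pool.Agent.T9h8.NA

open MvPolynomial Pool.Agent.T9h29.NA

universe u

section matrix

variable {K : Type u} [Field K] {r e : ℕ} {κ : Type} [Fintype κ] [DecidableEq κ]

/-- A nonzero vector supported on at most two coordinates is not orthogonal to the kernel of
`M`. -/
theorem vecMul_ne_zero {M : Matrix (Fin r) κ K} (hM : AllMinors M) (Sp : Split (e := e) M)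
    (hc : r + 2 ≤ Fintype.card κ) (u : κ → K) (hu : u ≠ 0) (c c' : κ)
    (hs : ∀ x, x ≠ c → x ≠ c' → u x = 0) : Matrix.vecMul u Sp.L ≠ 0 := by
  intro h0
  have h1 : u = Matrix.vecMul (Matrix.vecMul u Sp.Z) M := by
    have h2 : Matrix.vecMul u (1 - Sp.L * Sp.Q) = Matrix.vecMul u (Sp.Z * M) := by rw [Sp.LQ]
    rw [Matrix.vecMul_sub, Matrix.vecMul_one, ← Matrix.vecMul_vecMul, h0, Matrix.zero_vecMul,
      sub_zero, ← Matrix.vecMul_vecMul] at h2
    exact h2
  have hcard : Fintype.card (Fin r) ≤ Fintype.card {x : κ // x ≠ c ∧ x ≠ c'} := by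
    rw [Fintype.card_fin, Fintype.card_subtype]
    have h3 : (Finset.univ.filter fun x : κ => x ≠ c ∧ x ≠ c')
        = (Finset.univ \ {c, c'} : Finset κ) := by
      ext x; simp
    rw [h3]
    have h4 := Finset.le_card_sdiff ({c, c'} : Finset κ) (Finset.univ : Finset κ)
    have h5 : ({c, c'} : Finset κ).card ≤ 2 := Finset.card_le_two
    rw [Finset.card_univ] at h4
    omega
  obtain ⟨f⟩ := Function.Embedding.nonempty_of_card_le hcard
  have hf : Function.Injective fun i => (f i : κ) :=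
    Subtype.coe_injective.comp f.injective
  have h6 : Matrix.vecMul (Matrix.vecMul u Sp.Z) (M.submatrix id fun i => (f i : κ)) = 0 := by
    funext i
    have h7 : Matrix.vecMul (Matrix.vecMul u Sp.Z) (M.submatrix id fun i => (f i : κ)) i
        = Matrix.vecMul (Matrix.vecMul u Sp.Z) M (f i) := by
      simp [Matrix.vecMul, dotProduct, Matrix.submatrix]
    rw [h7, ← h1]
    exact hs _ (f i).2.1 (f i).2.2
  have h8 := Matrix.eq_zero_of_vecMul_eq_zero (hM _ hf) h6
  rw [h8, Matrix.zero_vecMul] at h1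
  exact hu h1

end matrix

section general

variable {K : Type u} [Field K] {B : Type} [Fintype B] [DecidableEq B] {ι : B → Type}
  [∀ b, Fintype (ι b)] [∀ b, DecidableEq (ι b)] {r e : B → ℕ}

/-- The coefficient vector of the linear form `ℓ_v`. -/
noncomputable def lam (M : ∀ b, Matrix (Fin (r b)) (ι b) K)
    (Sp : ∀ b, Split (e := e b) (M b)) (v : Var ι) (t : Σ b, Fin (e b + 1)) : K :=
  if h : t.1 = v.1 then (Sp v.1).L v.2 (Fin.cast (by rw [h]) t.2) else 0

omit [Fintype B] in
theorem lam_self (M : ∀ b, Matrix (Fin (r b)) (ι b) K)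
    (Sp : ∀ b, Split (e := e b) (M b)) (b : B) (c : ι b) (j : Fin (e b + 1)) :
    lam M Sp ⟨b, c⟩ ⟨b, j⟩ = (Sp b).L c j := by
  simp [lam]

omit [Fintype B] in
theorem lam_of_ne (M : ∀ b, Matrix (Fin (r b)) (ι b) K)
    (Sp : ∀ b, Split (e := e b) (M b)) (b b' : B) (hb : b' ≠ b) (c : ι b) (j : Fin (e b' + 1)) :
    lam M Sp ⟨b, c⟩ ⟨b', j⟩ = 0 := by
  simp [lam, hb]

omit [Fintype B] [DecidableEq B] in
theorem ell_mk (M : ∀ b, Matrix (Fin (r b)) (ι b) K)
    (Sp : ∀ b, Split (e := e b) (M b)) (b : B) (c : ι b) : ell M Sp ⟨b, c⟩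
      = ∑ j : Fin (e b + 1), C ((Sp b).L c j) * X ⟨b, j⟩ := rfl

theorem ell_eq_lf (M : ∀ b, Matrix (Fin (r b)) (ι b) K)
    (Sp : ∀ b, Split (e := e b) (M b)) (v : Var ι) : ell M Sp v = lf (lam M Sp v) := by
  obtain ⟨b, c⟩ := v
  unfold ell lf
  rw [← Finset.univ_sigma_univ, Finset.sum_sigma, Finset.sum_eq_single b]
  · refine Finset.sum_congr rfl fun j _ => ?_
    rw [lam_self]
  · intro b' _ hb'
    refine Finset.sum_eq_zero fun j _ => ?_
    rw [lam_of_ne _ _ _ _ hb', C_0, zero_mul]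
  · simp

variable (M : ∀ b, Matrix (Fin (r b)) (ι b) K) (Sp : ∀ b, Split (e := e b) (M b))

omit [Fintype B] in
theorem lam_ne_zero (hM : ∀ b, AllMinors (M b)) (hc : ∀ b, r b + 2 ≤ Fintype.card (ι b))
    (v : Var ι) : lam M Sp v ≠ 0 := by
  obtain ⟨b, c⟩ := v
  intro h
  have h1 := vecMul_ne_zero (hM b) (Sp b) (hc b) (Pi.single c 1 : ι b → K)
    (by intro h; have := congrFun h c; simp at this) c c
    (fun x hx _ => by rw [Pi.single_apply, if_neg hx])
  apply h1
  rw [Matrix.single_one_vecMul]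
  funext j
  have := congrFun h ⟨b, j⟩
  rw [lam_self] at this
  exact this

omit [Fintype B] in
theorem lam_pair (hM : ∀ b, AllMinors (M b)) (hc : ∀ b, r b + 2 ≤ Fintype.card (ι b))
    (v w : Var ι) (hvw : v ≠ w) (k : K) : lam M Sp w ≠ k • lam M Sp v := by
  obtain ⟨b, c⟩ := v
  obtain ⟨b', c'⟩ := w
  intro h
  by_cases hb : b = b'
  · subst hb
    have hcc : c ≠ c' := by rintro rfl; exact hvw rfl
    have h1 := vecMul_ne_zero (hM b) (Sp b) (hc b)
      ((Pi.single c' 1 : ι b → K) - k • (Pi.single c 1 : ι b → K))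
      (by
        intro h
        have := congrFun h c'
        simp [Ne.symm hcc] at this) c c'
      (fun x hx hx' => by simp [hx, hx'])
    apply h1
    rw [Matrix.sub_vecMul, Matrix.smul_vecMul, Matrix.single_one_vecMul,
      Matrix.single_one_vecMul]
    funext j
    have := congrFun h ⟨b, j⟩
    rw [lam_self, Pi.smul_apply, lam_self] at this
    simp [this]
  · apply lam_ne_zero M Sp hM hc ⟨b', c'⟩
    funext t
    rw [h]
    obtain ⟨b'', j⟩ := t
    by_cases hb'' : b'' = b
    · subst hb''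
      have h2 := lam_of_ne M Sp b' b'' hb c' j
      rw [h] at h2
      exact h2
    · rw [Pi.smul_apply, lam_of_ne _ _ _ _ hb'', smul_zero]; rfl

/-! ### Generation of `R` over `P` by the monomials `X^a` -/

omit [Fintype B] [DecidableEq B] in
/-- `X_v^3 = ψ(ℓ_v)` in `R`. -/
theorem mk_X_pow (v : Var ι) :
    Ideal.Quotient.mk (idl M) (X v ^ 3) = psi M Sp (ell M Sp v) := by
  obtain ⟨b, c⟩ := v
  have hcub : ∀ j, Ideal.Quotient.mk (idl M) (cubic M b j) = 0 := fun j =>
    Ideal.Quotient.eq_zero_iff_mem.2 (Ideal.subset_span ⟨b, j, rfl⟩)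
  have hpsi : psi M Sp (ell M Sp ⟨b, c⟩) = Ideal.Quotient.mk (idl M)
      (∑ c', C (((Sp b).L * (Sp b).Q) c c') * X ⟨b, c'⟩ ^ 3) := by
    unfold ell psi
    rw [map_sum]
    have : ∀ j, aeval (fun p : (Σ b, Fin (e b + 1)) => Ideal.Quotient.mk (idl M)
        (∑ c', C ((Sp p.1).Q p.2 c') * X ⟨p.1, c'⟩ ^ 3))
          (C ((Sp b).L c j) * X ⟨b, j⟩ : Pg K e)
        = Ideal.Quotient.mk (idl M) (C ((Sp b).L c j) *
          ∑ c', C ((Sp b).Q j c') * X ⟨b, c'⟩ ^ 3) := by
      intro j
      rw [map_mul, aeval_X, algHom_C, map_mul]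
      rfl
    rw [Finset.sum_congr rfl fun j _ => this j, ← map_sum]
    congr 1
    simp_rw [Finset.mul_sum, Matrix.mul_apply, map_sum, Finset.sum_mul, C_mul, mul_assoc]
    rw [Finset.sum_comm]
  have hsum : (∑ c', C (((Sp b).L * (Sp b).Q) c c') * X ⟨b, c'⟩ ^ 3 : MvPolynomial (Var ι) K)
      = X ⟨b, c⟩ ^ 3 - ∑ j, C ((Sp b).Z c j) * cubic M b j := by
    have hLQ : (Sp b).L * (Sp b).Q = 1 - (Sp b).Z * M b := by rw [← (Sp b).LQ]; simp
    rw [hLQ]
    have h1 : ∀ c' : ι b, (C (((1 : Matrix (ι b) (ι b) K) - (Sp b).Z * M b) c c') * X ⟨b, c'⟩ ^ 3 :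
        MvPolynomial (Var ι) K) = C ((1 : Matrix (ι b) (ι b) K) c c') * X ⟨b, c'⟩ ^ 3
          - C (((Sp b).Z * M b) c c') * X ⟨b, c'⟩ ^ 3 := by
      intro c'
      rw [Matrix.sub_apply, C_sub, sub_mul]
    rw [Finset.sum_congr rfl fun c' _ => h1 c', Finset.sum_sub_distrib]
    congr 1
    · rw [Finset.sum_eq_single c]
      · simp
      · intro c' _ hc'
        rw [Matrix.one_apply_ne (Ne.symm hc'), C_0, zero_mul]
      · simp
    · unfold cubic
      simp_rw [Finset.mul_sum, Matrix.mul_apply, map_sum, Finset.sum_mul, C_mul, mul_assoc]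
      rw [Finset.sum_comm]
  rw [hpsi, hsum, map_sub, map_sum]
  rw [Finset.sum_eq_zero, sub_zero]
  intro j _
  rw [map_mul, hcub, mul_zero]

/-- Elements of the `P`-span of the monomials `X^a`. -/
def Gen (y : Rg M) : Prop := ∃ p : (Var ι → Fin 3) → Pg K e, y = ∑ a, psi M Sp (p a) * Xa M a

theorem Gen.zero : Gen M Sp 0 := ⟨0, by simp⟩

theorem Gen.add {y z : Rg M} (hy : Gen M Sp y) (hz : Gen M Sp z) : Gen M Sp (y + z) := by
  obtain ⟨p, rfl⟩ := hy
  obtain ⟨q, rfl⟩ := hz
  refine ⟨p + q, ?_⟩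
  rw [← Finset.sum_add_distrib]
  refine Finset.sum_congr rfl fun a _ => ?_
  rw [Pi.add_apply, map_add, add_mul]

theorem Gen.psi_mul {y : Rg M} (hy : Gen M Sp y) (q : Pg K e) : Gen M Sp (psi M Sp q * y) := by
  obtain ⟨p, rfl⟩ := hy
  refine ⟨fun a => q * p a, ?_⟩
  rw [Finset.mul_sum]
  refine Finset.sum_congr rfl fun a _ => ?_
  rw [map_mul, mul_assoc]

theorem Gen.sum {α : Type*} (s : Finset α) (f : α → Rg M) (h : ∀ i ∈ s, Gen M Sp (f i)) :
    Gen M Sp (∑ i ∈ s, f i) := by
  classical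
  induction s using Finset.induction_on with
  | empty => simpa using Gen.zero M Sp
  | insert a s ha ih =>
    rw [Finset.sum_insert ha]
    exact Gen.add M Sp (h a (Finset.mem_insert_self _ _))
      (ih fun i hi => h i (Finset.mem_insert_of_mem hi))

theorem Gen.Xa (a : Var ι → Fin 3) : Gen M Sp (Xa M a) := by
  classical
  refine ⟨Pi.single a 1, ?_⟩
  rw [Finset.sum_eq_single a]
  · simp
  · intro b _ hb
    rw [Pi.single_eq_of_ne hb, map_zero, zero_mul]
  · simp

theorem Gen.X_mul_Xa (v : Var ι) (a : Var ι → Fin 3) :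
    Gen M Sp (Ideal.Quotient.mk (idl M) (X v) * Pool.Agent.T9h29.NA.Xa M a) := by
  classical
  have hprod : ∀ a : Var ι → Fin 3, (∏ w, X w ^ (a w : ℕ) : MvPolynomial (Var ι) K)
      = X v ^ (a v : ℕ) * ∏ w ∈ Finset.univ.erase v, X w ^ (a w : ℕ) := fun a =>
    (Finset.mul_prod_erase Finset.univ (fun w => (X w : MvPolynomial (Var ι) K) ^ (a w : ℕ))
      (Finset.mem_univ v)).symm
  have herase : ∀ k : Fin 3, (∏ w ∈ Finset.univ.erase v, X w ^ ((Function.update a v k) w : ℕ) :
      MvPolynomial (Var ι) K) = ∏ w ∈ Finset.univ.erase v, X w ^ (a w : ℕ) := by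
    intro k
    refine Finset.prod_congr rfl fun w hw => ?_
    rw [Function.update_of_ne (Finset.ne_of_mem_erase hw)]
  by_cases hlt : (a v : ℕ) < 2
  · have : Ideal.Quotient.mk (idl M) (X v) * Pool.Agent.T9h29.NA.Xa M a
        = Pool.Agent.T9h29.NA.Xa M (Function.update a v ⟨(a v : ℕ) + 1, by omega⟩) := by
      unfold Pool.Agent.T9h29.NA.Xa
      rw [← map_mul]
      congr 1
      rw [hprod a, hprod (Function.update a v ⟨(a v : ℕ) + 1, by omega⟩), herase,
        Function.update_self, ← mul_assoc, ← pow_succ']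
    rw [this]
    exact Gen.Xa M Sp _
  · have h2 : (a v : ℕ) = 2 := by have := (a v).isLt; omega
    have : Ideal.Quotient.mk (idl M) (X v) * Pool.Agent.T9h29.NA.Xa M a
        = psi M Sp (ell M Sp v) * Pool.Agent.T9h29.NA.Xa M (Function.update a v 0) := by
      rw [← mk_X_pow]
      unfold Pool.Agent.T9h29.NA.Xa
      rw [← map_mul, ← map_mul]
      congr 1
      rw [hprod a, hprod (Function.update a v 0), herase, Function.update_self, h2]
      simp only [Fin.val_zero, pow_zero, one_mul]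
      ring
    rw [this]
    exact Gen.psi_mul M Sp (Gen.Xa M Sp _) _

theorem Gen.X_mul {y : Rg M} (hy : Gen M Sp y) (v : Var ι) :
    Gen M Sp (Ideal.Quotient.mk (idl M) (X v) * y) := by
  obtain ⟨p, rfl⟩ := hy
  rw [Finset.mul_sum]
  refine Gen.sum M Sp _ _ fun a _ => ?_
  rw [mul_left_comm]
  exact Gen.psi_mul M Sp (Gen.X_mul_Xa M Sp v a) _

theorem Gen.one : Gen M Sp 1 := by
  have : (1 : Rg M) = Pool.Agent.T9h29.NA.Xa M 0 := by
    unfold Pool.Agent.T9h29.NA.Xa
    simp
  rw [this]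
  exact Gen.Xa M Sp _

theorem gen_all (y : Rg M) : Gen M Sp y := by
  obtain ⟨f, rfl⟩ := Ideal.Quotient.mk_surjective y
  induction f using MvPolynomial.induction_on with
  | C a =>
    have : Ideal.Quotient.mk (idl M) (C a) = psi M Sp (C a) * 1 := by
      unfold psi
      rw [algHom_C, mul_one]
      rfl
    rw [this]
    exact Gen.psi_mul M Sp (Gen.one M Sp) _
  | add f g hf hg =>
    rw [map_add]
    exact Gen.add M Sp hf hg
  | mul_X f v hf =>
    rw [map_mul, mul_comm]
    exact Gen.X_mul M Sp hf v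

/-! ### The embedding of `R` into a field -/

omit [Fintype B] [DecidableEq B] in
theorem exists_roots [CharZero K] : ∃ x : Var ι → AlgebraicClosure (FractionRing (Pg K e)),
    ∀ v, x v ^ 3 = algebraMap (Pg K e) _ (ell M Sp v) := by
  have : ∀ v : Var ι, ∃ y : AlgebraicClosure (FractionRing (Pg K e)),
      y ^ 3 = algebraMap (Pg K e) _ (ell M Sp v) := fun v =>
    IsAlgClosed.exists_pow_nat_eq _ (by norm_num)
  choose x hx using this
  exact ⟨x, hx⟩

/-- The ring `R` is a domain, given cube roots of the linear forms in a field `E`. -/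
theorem isDomain_aux [IsAlgClosed K] (hM : ∀ b, AllMinors (M b))
    (hc : ∀ b, r b + 2 ≤ Fintype.card (ι b)) {E : Type u} [Field E] [Algebra K E]
    [Algebra (Pg K e) E] [Algebra (FractionRing (Pg K e)) E] [IsScalarTower K (Pg K e) E]
    [IsScalarTower (Pg K e) (FractionRing (Pg K e)) E]
    [IsScalarTower K (FractionRing (Pg K e)) E] [Normal (FractionRing (Pg K e)) E]
    [Algebra.IsSeparable (FractionRing (Pg K e)) E] (x : Var ι → E)
    (hx : ∀ v, x v ^ 3 = algebraMap (Pg K e) E (ell M Sp v)) : IsDomain (Rg M) := by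
  classical
  have htow : ∀ q : Pg K e, algebraMap (Pg K e) E q
      = algebraMap (FractionRing (Pg K e)) E (algebraMap _ _ q) := fun q =>
    IsScalarTower.algebraMap_apply _ _ _ q
  have hinj : Function.Injective (algebraMap (Pg K e) E) := by
    intro p q h
    rw [htow, htow] at h
    exact IsFractionRing.injective (Pg K e) (FractionRing (Pg K e))
      ((algebraMap (FractionRing (Pg K e)) E).injective h)
  have hl0 : ∀ v : Var ι, ell M Sp v ≠ 0 := fun v => by
    rw [ell_eq_lf]; exact lf_ne_zero (lam_ne_zero M Sp hM hc v)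
  have hx0 : ∀ v, x v ≠ 0 := by
    intro v h
    have := hx v
    rw [h, zero_pow (by norm_num)] at this
    exact hl0 v (hinj (by rw [← this, map_zero]))
  -- the homomorphism
  have hker : ∀ f ∈ idl M, aeval x f = 0 := by
    intro f hf
    have : idl M ≤ RingHom.ker (aeval x : MvPolynomial (Var ι) K →ₐ[K] E) := by
      unfold idl
      rw [Ideal.span_le]
      rintro F ⟨b, j, rfl⟩
      rw [SetLike.mem_coe, RingHom.mem_ker]
      unfold cubic
      rw [map_sum]
      have h1 : ∀ c : ι b, aeval x (C (M b j c) * X (⟨b, c⟩ : Var ι) ^ 3 : MvPolynomial _ K)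
          = algebraMap (Pg K e) E (C (M b j c) * ell M Sp ⟨b, c⟩) := by
        intro c
        rw [map_mul, map_pow, aeval_X, hx, algHom_C, map_mul]
        congr 1
        exact IsScalarTower.algebraMap_apply K (Pg K e) E _
      rw [Finset.sum_congr rfl fun c _ => h1 c, ← map_sum]
      have h2 : ∑ c, C (M b j c) * ell M Sp (⟨b, c⟩ : Var ι) = 0 := by
        simp_rw [ell_mk]
        simp_rw [Finset.mul_sum, ← mul_assoc, ← C_mul]
        rw [Finset.sum_comm]
        refine Finset.sum_eq_zero fun i _ => ?_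
        rw [← Finset.sum_mul, ← map_sum]
        have h3 : ∑ c, M b j c * (Sp b).L c i = (M b * (Sp b).L) j i := rfl
        rw [h3, (Sp b).ML]
        simp
      rw [h2, map_zero]
    exact this hf
  set φ : Rg M →ₐ[K] E := Ideal.Quotient.liftₐ (idl M) (aeval x) hker with hφ
  have hφmk : ∀ f, φ (Ideal.Quotient.mk (idl M) f) = aeval x f := fun f => rfl
  have hφpsi : ∀ q : Pg K e, φ (psi M Sp q) = algebraMap (Pg K e) E q := by
    intro q
    have : (φ.comp (psi M Sp)) = IsScalarTower.toAlgHom K (Pg K e) E := by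
      apply MvPolynomial.algHom_ext
      rintro ⟨b, i⟩
      rw [AlgHom.comp_apply]
      unfold psi
      rw [aeval_X, hφmk, map_sum, IsScalarTower.toAlgHom_apply]
      have h1 : ∀ c : ι b, aeval x (C ((Sp b).Q i c) * X (⟨b, c⟩ : Var ι) ^ 3 :
          MvPolynomial _ K) = algebraMap (Pg K e) E (C ((Sp b).Q i c) * ell M Sp ⟨b, c⟩) := by
        intro c
        rw [map_mul, map_pow, aeval_X, hx, algHom_C, map_mul]
        congr 1
        exact IsScalarTower.algebraMap_apply K (Pg K e) E _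
      rw [Finset.sum_congr rfl fun c _ => h1 c, ← map_sum]
      congr 1
      simp_rw [ell_mk]
      simp_rw [Finset.mul_sum, ← mul_assoc, ← C_mul]
      rw [Finset.sum_comm]
      have h2 : ∀ j, ∑ c, C ((Sp b).Q i c * (Sp b).L c j) * X (⟨b, j⟩ : Σ b, Fin (e b + 1))
          = C ((1 : Matrix (Fin (e b + 1)) (Fin (e b + 1)) K) i j) * X ⟨b, j⟩ := by
        intro j
        rw [← Finset.sum_mul, ← map_sum]
        have h3 : ∑ c, (Sp b).Q i c * (Sp b).L c j = ((Sp b).Q * (Sp b).L) i j := rfl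
        rw [h3, (Sp b).QL]
      rw [Finset.sum_congr rfl fun j _ => h2 j, Finset.sum_eq_single i]
      · simp
      · intro j _ hj
        rw [Matrix.one_apply_ne (Ne.symm hj), C_0, zero_mul]
      · simp
    have h4 := congrArg (fun f => f q) this
    exact h4
  have hφXa : ∀ a : Var ι → Fin 3, φ (Pool.Agent.T9h29.NA.Xa M a) = ∏ v, x v ^ (a v : ℕ) := by
    intro a
    unfold Pool.Agent.T9h29.NA.Xa
    rw [hφmk, map_prod]
    simp_rw [map_pow, aeval_X]
  -- linear independence
  have hind : LinearIndependent (FractionRing (Pg K e))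
      (fun a : Var ι → Fin 3 => ∏ v, x v ^ (a v : ℕ)) := by
    apply linearIndependent_of_cubes
    · intro z hz
      obtain ⟨c, hc'⟩ := cube_root_of_one (K := K) z hz
      exact ⟨algebraMap K _ c, by rw [← hc', ← IsScalarTower.algebraMap_apply]⟩
    · intro a
      exact Finset.prod_ne_zero_iff.2 fun v _ => pow_ne_zero _ (hx0 v)
    · intro a
      refine ⟨algebraMap (Pg K e) _ (∏ v, ell M Sp v ^ (a v : ℕ)), ?_⟩
      rw [← htow, map_prod, ← Finset.prod_pow]
      refine Finset.prod_congr rfl fun v _ => ?_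
      rw [map_pow, ← hx, ← pow_mul, ← pow_mul, mul_comm]
    · intro a a' hne c h
      apply hne
      obtain ⟨f, g, hg, rfl⟩ := IsFractionRing.div_surjective (A := Pg K e) c
      have hg0 : g ≠ 0 := nonZeroDivisors.ne_zero hg
      have hgE : algebraMap (Pg K e) E g ≠ 0 := fun h => hg0 (hinj (by rw [h, map_zero]))
      have hprod0 : ∀ b : Var ι → Fin 3, ∏ v, x v ^ (b v : ℕ) ≠ 0 := fun b =>
        Finset.prod_ne_zero_iff.2 fun v _ => pow_ne_zero _ (hx0 v)
      have hcube : ∀ b : Var ι → Fin 3, (∏ v, x v ^ (b v : ℕ)) ^ 3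
          = algebraMap (Pg K e) E (∏ v, ell M Sp v ^ (b v : ℕ)) := by
        intro b
        rw [map_prod, ← Finset.prod_pow]
        refine Finset.prod_congr rfl fun v _ => ?_
        rw [map_pow, ← hx, ← pow_mul, ← pow_mul, mul_comm]
      have h1 : algebraMap (Pg K e) E g * ∏ v, x v ^ (a v : ℕ)
          = algebraMap (Pg K e) E f * ∏ v, x v ^ (a' v : ℕ) := by
        rw [h, map_div₀, ← htow, ← htow]
        field_simp
      have hf0 : f ≠ 0 := by
        rintro rfl
        rw [map_zero, zero_mul] at h1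
        rcases mul_eq_zero.1 h1 with h2 | h2
        · exact hgE h2
        · exact hprod0 a h2
      have h2 := congrArg (fun z => z ^ 3) h1
      simp only [mul_pow] at h2
      rw [hcube, hcube, ← map_pow, ← map_pow, ← map_mul, ← map_mul] at h2
      have h3 := hinj h2
      simp_rw [ell_eq_lf] at h3
      exact exponents_eq (lam M Sp) (lam_ne_zero M Sp hM hc) (lam_pair M Sp hM hc) a a' g f hg0
        hf0 h3
  have hφinj : Function.Injective φ := by
    rw [injective_iff_map_eq_zero]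
    intro y hy
    obtain ⟨p, rfl⟩ := gen_all M Sp y
    rw [map_sum] at hy
    have h1 : ∑ a, (algebraMap (Pg K e) (FractionRing (Pg K e)) (p a)) •
        (∏ v, x v ^ (a v : ℕ)) = 0 := by
      rw [← hy]
      refine Finset.sum_congr rfl fun a _ => ?_
      rw [map_mul, hφpsi, hφXa, Algebra.smul_def, ← htow]
    have h2 := Fintype.linearIndependent_iff.1 hind _ h1
    refine Finset.sum_eq_zero fun a _ => ?_
    have h3 : p a = 0 := IsFractionRing.injective (Pg K e) (FractionRing (Pg K e))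
      (by rw [h2 a, map_zero])
    rw [h3, map_zero, zero_mul]
  exact hφinj.isDomain φ.toRingHom

include Sp in
/-- The ring `R` is a domain if the splittings are given. -/
theorem isDomain_of_split [CharZero K] [IsAlgClosed K] (hM : ∀ b, AllMinors (M b))
    (hc : ∀ b, r b + 2 ≤ Fintype.card (ι b)) : IsDomain (Rg M) := by
  have : CharZero (FractionRing (Pg K e)) :=
    charZero_of_injective_algebraMap (R := Pg K e) (IsFractionRing.injective _ _)
  obtain ⟨x, hx⟩ := exists_roots M Sp
  exact isDomain_aux M Sp hM hc x hx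

end general

end Pool.Agent.T9h8.NA
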