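import Mathlib

/-!
# Normality of rings generated by cube roots of primes

`R` is generated as a module over the factorial domain `P` by the monomials `x^a`, `a ∈ {0,1,2}^V`,
where `x_v^3 = ℓ_v` are pairwise non-associated primes of `P`, and `R` is a domain with the
automorphisms `x_v ↦ ω x_v`.  Then `R` is integrally closed.
-/

namespace Pool.Agent.T9h8.NA

open Polynomial

section ufd

variable {P : Type*} [CommRing P] [IsDomain P] [UniqueFactorizationMonoid P]
  {V : Type*} [Fintype V]

/-- If `s^3 ∣ p^3 ∏ ℓ_v^{a_v}` with `a_v ≤ 2` and pairwise non-associated primes `ℓ_v`, then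
`s ∣ p`. -/
theorem dvd_of_cube_dvd (l : V → P) (hl : ∀ v, Prime (l v))
    (hpair : ∀ v w, v ≠ w → ¬ l v ∣ l w) (a : V → Fin 3) (s p : P) (hs : s ≠ 0)
    (h : s ^ 3 ∣ p ^ 3 * ∏ v, l v ^ (a v : ℕ)) : s ∣ p := by
  classical
  obtain ⟨s', p', g, hrel, rfl, rfl⟩ := UniqueFactorizationMonoid.exists_reduced_factors s hs p
  have hg : g ≠ 0 := left_ne_zero_of_mul hs
  have h1 : s' ^ 3 ∣ p' ^ 3 * ∏ v, l v ^ (a v : ℕ) := by
    rw [mul_pow, mul_pow, mul_assoc] at h
    exact (mul_dvd_mul_iff_left (pow_ne_zero 3 hg)).1 h
  have h2 : s' ^ 3 ∣ ∏ v, l v ^ (a v : ℕ) :=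
    (hrel.pow_left.pow_right : IsRelPrime (s' ^ 3) (p' ^ 3)).dvd_of_dvd_mul_left h1
  have hunit : IsUnit s' := by
    by_contra hnu
    have hs' : s' ≠ 0 := right_ne_zero_of_mul hs
    obtain ⟨q, hq, hqs⟩ := WfDvdMonoid.exists_irreducible_factor hnu hs'
    have hqp : Prime q := UniqueFactorizationMonoid.irreducible_iff_prime.1 hq
    have h3 : q ^ 3 ∣ ∏ v, l v ^ (a v : ℕ) := (pow_dvd_pow_of_dvd hqs 3).trans h2
    have h4 : q ∣ ∏ v, l v ^ (a v : ℕ) := (dvd_pow_self q (by norm_num)).trans h3
    obtain ⟨v, _, hv⟩ := (Prime.dvd_finsetProd_iff hqp _).1 h4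
    have h5 : q ∣ l v := hqp.dvd_of_dvd_pow hv
    have h6 : Associated q (l v) := hq.associated_of_dvd (hl v).irreducible h5
    have h7 : l v ^ 3 ∣ ∏ w, l w ^ (a w : ℕ) := (h6.symm.pow_pow.dvd).trans h3
    have hval : emultiplicity (l v) (∏ w, l w ^ (a w : ℕ)) = ((a v : ℕ) : ℕ∞) := by
      rw [Finset.emultiplicity_prod (hl v), Finset.sum_eq_single v]
      · rw [emultiplicity_pow (hl v), FiniteMultiplicity.emultiplicity_self
          (FiniteMultiplicity.of_not_isUnit (hl v).not_isUnit (hl v).ne_zero), mul_one]
      · intro w _ hw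
        rw [emultiplicity_pow (hl v), emultiplicity_eq_zero.2 (hpair v w (Ne.symm hw)), mul_zero]
      · simp
    have h8 := le_emultiplicity_of_pow_dvd h7
    rw [hval] at h8
    have h9 : (3 : ℕ) ≤ (a v : ℕ) := by exact_mod_cast h8
    have := (a v).isLt
    omega
  exact mul_dvd_mul_left g (hunit.dvd)

end ufd

section main

variable {K P R : Type*} [Field K] [CommRing P] [IsDomain P] [UniqueFactorizationMonoid P]
  [CommRing R] [IsDomain R] [Algebra K P] [Algebra K R] [Algebra P R] [IsScalarTower K P R]
  {V : Type*} [Fintype V] [DecidableEq V]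

/-- `y = ∑_a p_a x^a`. -/
noncomputable def comb (x : V → R) (p : (V → Fin 3) → P) : R :=
  ∑ a, algebraMap P R (p a) * ∏ v, x v ^ (a v : ℕ)

omit [IsDomain P] [UniqueFactorizationMonoid P] [IsDomain R] in
theorem isIntegral_gen (l : V → P) (x : V → R) (hx : ∀ v, x v ^ 3 = algebraMap P R (l v))
    (hgen : ∀ y : R, ∃ p : (V → Fin 3) → P, y = comb x p) : Algebra.IsIntegral P R := by
  constructor
  intro y
  obtain ⟨p, rfl⟩ := hgen y
  refine IsIntegral.sum _ fun a _ => IsIntegral.mul isIntegral_algebraMap ?_
  refine IsIntegral.prod _ fun v _ => IsIntegral.pow ?_ _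
  refine ⟨X ^ 3 - C (l v), monic_X_pow_sub_C _ (by norm_num), ?_⟩
  simp [hx v]

omit [UniqueFactorizationMonoid P] in
/-- An element `a / s`, `a, s ∈ P`, of a domain extension of `P` which is integral over `P` lies
in `P`. -/
theorem dvd_of_isIntegral {L : Type*} [Field L] [Algebra P L] [FaithfulSMul P L]
    [IsIntegrallyClosed P] (a s : P) (hs : s ≠ 0)
    (h : IsIntegral P (algebraMap P L a / algebraMap P L s)) : s ∣ a := by
  let f : FractionRing P →ₐ[P] L := IsFractionRing.liftAlgHom (g := Algebra.ofId P L)
    (FaithfulSMul.algebraMap_injective P L)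
  have hs' : algebraMap P (FractionRing P) s ≠ 0 := by
    intro h0
    exact hs (IsFractionRing.injective P (FractionRing P) (by rw [h0, map_zero]))
  have hf : f (algebraMap P _ a / algebraMap P _ s) = algebraMap P L a / algebraMap P L s := by
    rw [map_div₀, AlgHom.commutes, AlgHom.commutes]
  rw [← hf] at h
  have h1 : IsIntegral P (algebraMap P (FractionRing P) a / algebraMap P _ s) :=
    (isIntegral_algHom_iff f f.toRingHom.injective).1 h
  obtain ⟨y, hy⟩ := IsIntegrallyClosed.isIntegral_iff.1 h1
  refine ⟨y, IsFractionRing.injective P (FractionRing P) ?_⟩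
  rw [map_mul, hy, mul_div_cancel₀ _ hs']

variable (ω : K)

/-- Normality of `R`. -/
theorem isIntegrallyClosed_of_cubeRoots (hω : IsPrimitiveRoot ω 3) (l : V → P)
    (hl : ∀ v, Prime (l v)) (hpair : ∀ v w, v ≠ w → ¬ l v ∣ l w) (x : V → R)
    (hx : ∀ v, x v ^ 3 = algebraMap P R (l v)) (hinj : Function.Injective (algebraMap P R))
    (hgen : ∀ y : R, ∃ p : (V → Fin 3) → P, y = comb x p)
    (act : V → R →ₐ[P] R) (hself : ∀ v, act v (x v) = algebraMap K R ω * x v)
    (hother : ∀ v u, u ≠ v → act v (x u) = x u) : IsIntegrallyClosed R := by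
  classical
  have hint : Algebra.IsIntegral P R := isIntegral_gen l x hx hgen
  have : FaithfulSMul P R := (faithfulSMul_iff_algebraMap_injective P R).2 hinj
  have : FaithfulSMul P (FractionRing R) := by
    rw [faithfulSMul_iff_algebraMap_injective, IsScalarTower.algebraMap_eq P R (FractionRing R)]
    exact (IsFractionRing.injective R (FractionRing R)).comp hinj
  set L := FractionRing R with hL
  have hRL : Function.Injective (algebraMap R L) := IsFractionRing.injective R L
  -- the extensions of the automorphisms
  have hactinj : ∀ v, Function.Injective (act v) := by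
    intro v
    rw [injective_iff_map_eq_zero]
    intro y hy
    have hbot : RingHom.ker (act v : R →+* R) = ⊥ := by
      apply Ideal.eq_bot_of_comap_eq_bot (R := P)
      rw [eq_bot_iff]
      intro c hc
      rw [Ideal.mem_comap, RingHom.mem_ker] at hc
      rw [Ideal.mem_bot]
      apply hinj
      rw [map_zero, ← hc]
      exact ((act v).commutes c).symm
    have : y ∈ RingHom.ker (act v : R →+* R) := hy
    rw [hbot] at this
    exact this
  let Act : V → L →ₐ[P] L := fun v => IsFractionRing.liftAlgHom
    (g := (IsScalarTower.toAlgHom P R L).comp (act v)) (hRL.comp (hactinj v))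
  have hAct : ∀ v (y : R), Act v (algebraMap R L y) = algebraMap R L (act v y) := by
    intro v y
    exact IsFractionRing.lift_algebraMap (g := ((IsScalarTower.toAlgHom P R L).comp
      (act v) : R →+* L)) (hRL.comp (hactinj v)) y
  have hactK : ∀ v (c : K), act v (algebraMap K R c) = algebraMap K R c := by
    intro v c
    rw [IsScalarTower.algebraMap_apply K P R, AlgHom.commutes]
  have hactmon : ∀ v (a : V → Fin 3), act v (∏ u, x u ^ (a u : ℕ))
      = algebraMap K R (ω ^ (a v : ℕ)) * ∏ u, x u ^ (a u : ℕ) := by
    intro v a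
    rw [map_prod, ← Finset.mul_prod_erase Finset.univ (fun u => act v (x u ^ (a u : ℕ)))
      (Finset.mem_univ v), ← Finset.mul_prod_erase Finset.univ (fun u => x u ^ (a u : ℕ))
      (Finset.mem_univ v), map_pow, hself, mul_pow, map_pow, mul_assoc]
    congr 2
    refine Finset.prod_congr rfl fun u hu => ?_
    rw [map_pow, hother v u (Finset.ne_of_mem_erase hu)]
  have hactcomb : ∀ v (p : (V → Fin 3) → P), act v (comb x p)
      = comb x fun a => algebraMap K P (ω ^ (a v : ℕ)) * p a := by
    intro v p
    unfold comb
    rw [map_sum]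
    refine Finset.sum_congr rfl fun a _ => ?_
    rw [map_mul, hactmon, AlgHom.commutes, map_mul, ← IsScalarTower.algebraMap_apply]
    ring
  have hcombsub : ∀ p q : (V → Fin 3) → P, comb x p - comb x q = comb x (p - q) := by
    intro p q
    unfold comb
    rw [← Finset.sum_sub_distrib]
    refine Finset.sum_congr rfl fun a _ => ?_
    rw [Pi.sub_apply, map_sub, sub_mul]
  have hcombK : ∀ (c : P) (p : (V → Fin 3) → P), algebraMap P R c * comb x p
      = comb x (fun a => c * p a) := by
    intro c p
    unfold comb
    rw [Finset.mul_sum]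
    refine Finset.sum_congr rfl fun a _ => ?_
    rw [map_mul, mul_assoc]
  have hωne : ∀ i j : Fin 3, i ≠ j → ω ^ (i : ℕ) - ω ^ (j : ℕ) ≠ 0 := by
    intro i j hij h0
    apply hij
    apply Fin.ext
    exact hω.pow_inj i.isLt j.isLt (sub_eq_zero.1 h0)
  rw [isIntegrallyClosed_iff L]
  intro z hz
  -- `z = y / s` with `s ∈ P`
  obtain ⟨s, hs, y, hy⟩ : ∃ s : P, s ≠ 0 ∧ ∃ y : R, algebraMap P L s * z = algebraMap R L y := by
    obtain ⟨n, d, hd, rfl⟩ := IsFractionRing.div_surjective (A := R) z
    have hd0 : d ≠ 0 := nonZeroDivisors.ne_zero hd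
    obtain ⟨c, s, hs, h⟩ := (Algebra.IsIntegral.isIntegral (R := P) d).isAlgebraic.exists_smul_eq_mul
      n hd
    refine ⟨s, hs, c, ?_⟩
    have hd1 : algebraMap R L d ≠ 0 := fun h0 => hd0 (hRL (by rw [h0, map_zero]))
    rw [Algebra.smul_def] at h
    have h1 := congrArg (algebraMap R L) h
    rw [map_mul, map_mul, ← IsScalarTower.algebraMap_apply] at h1
    rw [mul_div_assoc', h1, mul_div_assoc, mul_comm, div_mul_cancel₀ _ hd1]
  have hsL : algebraMap P L s ≠ 0 := by
    intro h0
    exact hs (FaithfulSMul.algebraMap_injective P L (by rw [h0, map_zero]))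
  -- integrality over `P`
  have hzP : IsIntegral P z := isIntegral_trans z hz
  -- separation of the components
  have key : ∀ n : ℕ, ∀ p : (V → Fin 3) → P, (Finset.univ.filter fun a => p a ≠ 0).card ≤ n →
      IsIntegral P (algebraMap R L (comb x p) / algebraMap P L s) → ∀ b,
      IsIntegral P (algebraMap R L (comb x (Pi.single b (p b))) / algebraMap P L s) := by
    intro n
    induction n with
    | zero =>
      intro p hp _ b
      have hb : p b = 0 := by
        by_contra hb
        have h0 : (Finset.univ.filter fun a => p a ≠ 0).card = 0 := Nat.le_zero.1 hp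
        rw [Finset.card_eq_zero] at h0
        have : b ∈ Finset.univ.filter fun a => p a ≠ 0 := by simp [hb]
        rw [h0] at this
        simp at this
      rw [hb, Pi.single_zero]
      have : comb x (0 : (V → Fin 3) → P) = 0 := by
        unfold comb
        simp
      rw [this, map_zero, zero_div]
      exact isIntegral_zero
    | succ n ih =>
      intro p hp hint b
      by_cases hone : ∃ b', b' ≠ b ∧ p b' ≠ 0
      · obtain ⟨b', hbb, hb'⟩ := hone
        obtain ⟨v, hv⟩ : ∃ v, b v ≠ b' v := by
          by_contra hcon
          push Not at hcon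
          exact hbb (funext hcon).symm
        -- the new combination
        let p' : (V → Fin 3) → P := fun a =>
          algebraMap K P (ω ^ (a v : ℕ) - ω ^ (b' v : ℕ)) * p a
        have hcomb' : act v (comb x p) - algebraMap P R (algebraMap K P (ω ^ (b' v : ℕ))) *
            comb x p = comb x p' := by
          rw [hactcomb, hcombK, hcombsub]
          congr 1
          funext a
          simp only [p', Pi.sub_apply, map_sub]
          ring
        have hint' : IsIntegral P (algebraMap R L (comb x p') / algebraMap P L s) := by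
          have h1 : algebraMap R L (comb x p') / algebraMap P L s
              = Act v (algebraMap R L (comb x p) / algebraMap P L s)
                - algebraMap P L (algebraMap K P (ω ^ (b' v : ℕ))) *
                  (algebraMap R L (comb x p) / algebraMap P L s) := by
            rw [map_div₀, hAct, AlgHom.commutes, ← hcomb', map_sub, map_mul,
              ← IsScalarTower.algebraMap_apply P R L]
            ring
          rw [h1]
          exact (hint.map (Act v)).sub (isIntegral_algebraMap.mul hint)
        have hcard : (Finset.univ.filter fun a => p' a ≠ 0).card ≤ n := by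
          have hsub : (Finset.univ.filter fun a => p' a ≠ 0)
              ⊆ (Finset.univ.filter fun a => p a ≠ 0).erase b' := by
            intro a ha
            rw [Finset.mem_filter] at ha
            rw [Finset.mem_erase, Finset.mem_filter]
            refine ⟨?_, Finset.mem_univ _, right_ne_zero_of_mul ha.2⟩
            rintro rfl
            apply ha.2
            simp [p']
          have h2 := Finset.card_le_card hsub
          rw [Finset.card_erase_of_mem (by simp [hb'])] at h2
          omega
        have h3 := ih p' hcard hint' b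
        have h4 : Pi.single b (p' b) = fun a => algebraMap K P (ω ^ (b v : ℕ) - ω ^ (b' v : ℕ)) *
            (Pi.single b (p b) : (V → Fin 3) → P) a := by
          funext a
          by_cases hab : a = b
          · subst hab; simp [p']
          · simp [Pi.single_eq_of_ne hab]
        rw [h4, ← hcombK, map_mul, ← IsScalarTower.algebraMap_apply P R L] at h3
        have h5 : algebraMap R L (comb x (Pi.single b (p b))) / algebraMap P L s
            = algebraMap P L (algebraMap K P (ω ^ (b v : ℕ) - ω ^ (b' v : ℕ))⁻¹) *
              (algebraMap P L (algebraMap K P (ω ^ (b v : ℕ) - ω ^ (b' v : ℕ))) *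
                algebraMap R L (comb x (Pi.single b (p b))) / algebraMap P L s) := by
          rw [mul_div_assoc, ← mul_assoc, ← map_mul, ← map_mul,
            inv_mul_cancel₀ (hωne _ _ hv), map_one, map_one, one_mul]
        rw [h5]
        exact isIntegral_algebraMap.mul h3
      · push Not at hone
        have : Pi.single b (p b) = p := by
          funext a
          by_cases hab : a = b
          · subst hab; simp
          · rw [Pi.single_eq_of_ne hab, hone a hab]
        rw [this]
        exact hint
  obtain ⟨p, rfl⟩ := hgen y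
  have hz' : z = algebraMap R L (comb x p) / algebraMap P L s := by
    rw [← hy, mul_comm, mul_div_assoc, div_self hsL, mul_one]
  rw [hz'] at hzP
  have hcomp := key _ p le_rfl hzP
  have hdvd : ∀ b, s ∣ p b := by
    intro b
    have h1 := (hcomp b).pow 3
    have h2 : comb x (Pi.single b (p b)) = algebraMap P R (p b) * ∏ v, x v ^ (b v : ℕ) := by
      unfold comb
      rw [Finset.sum_eq_single b]
      · simp
      · intro a _ hab
        rw [Pi.single_eq_of_ne hab, map_zero, zero_mul]
      · simp
    have h3 : (algebraMap R L (comb x (Pi.single b (p b))) / algebraMap P L s) ^ 3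
        = algebraMap P L (p b ^ 3 * ∏ v, l v ^ (b v : ℕ)) / algebraMap P L (s ^ 3) := by
      rw [div_pow, ← map_pow, ← map_pow, h2, mul_pow, ← Finset.prod_pow,
        IsScalarTower.algebraMap_apply P R L (p b ^ 3 * _)]
      congr 2
      rw [map_mul, map_pow, map_prod]
      congr 1
      refine Finset.prod_congr rfl fun v _ => ?_
      rw [map_pow, ← hx, ← pow_mul, ← pow_mul, mul_comm]
    rw [h3] at h1
    have h4 := dvd_of_isIntegral (P := P) _ _ (pow_ne_zero 3 hs) h1
    exact dvd_of_cube_dvd l hl hpair b s (p b) hs h4
  choose q hq using hdvd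
  refine ⟨comb x q, ?_⟩
  rw [hz']
  have : comb x p = algebraMap P R s * comb x q := by
    rw [hcombK]
    congr 1
    funext a
    exact hq a
  rw [this, map_mul, ← IsScalarTower.algebraMap_apply P R L, mul_comm, mul_div_assoc,
    div_self hsL, mul_one]

end main

end Pool.Agent.T9h8.NA
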