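import Pool.Agent.T9h8.NA.Split
import Pool.Agent.T9h8.NA.NormalAbs
import Pool.Agent.T9h29.NA.Avg
import Pool.Agent.T9h31.NA.FreeP
import Pool.Agent.T9h82.NA.Retract

/-!
# The rings `R` and `S` are integrally closed
-/

namespace Pool.Agent.T9h8.NA

open MvPolynomial Pool.Agent.T9h29.NA

universe u

section general

variable {K : Type u} [Field K] {B : Type} [Fintype B] [DecidableEq B] {ι : B → Type}
  [∀ b, Fintype (ι b)] [∀ b, DecidableEq (ι b)] {r e : B → ℕ}

/-- A primitive cube root of unity in an algebraically closed field of characteristic `0`. -/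
theorem exists_primitive (K : Type u) [Field K] [IsAlgClosed K] [CharZero K] :
    ∃ ω : K, IsPrimitiveRoot ω 3 := by
  have hne : (Polynomial.X ^ 2 + Polynomial.X + 1 : Polynomial K).degree ≠ 0 := by
    have : (Polynomial.X ^ 2 + Polynomial.X + 1 : Polynomial K).degree = 2 := by
      compute_degree!
    rw [this]; decide
  obtain ⟨w, hw⟩ := IsAlgClosed.exists_root (Polynomial.X ^ 2 + Polynomial.X + 1 : Polynomial K) hne
  have hw' : w ^ 2 + w + 1 = 0 := by simpa [Polynomial.IsRoot] using hw
  have h3 : w ^ 3 = 1 := by linear_combination (w - 1) * hw'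
  have h1 : w ≠ 1 := by
    rintro rfl
    have : (3 : K) = 0 := by linear_combination hw'
    exact three_ne_zero this
  have : Fact (Nat.Prime 3) := ⟨Nat.prime_three⟩
  have := orderOf_eq_prime h3 h1
  refine ⟨w, ?_⟩
  rw [← this]
  exact IsPrimitiveRoot.orderOf w

variable (M : ∀ b, Matrix (Fin (r b)) (ι b) K) (Sp : ∀ b, Split (e := e b) (M b))

theorem psi_injective : Function.Injective (psi M Sp) := by
  classical
  rw [injective_iff_map_eq_zero]
  intro p hp
  have h0 := Pool.Agent.T9h31.NA.Nbar_psi M Sp p (Xa M 0)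
  rw [hp, zero_mul, map_zero, Pool.Agent.T9h31.NA.Nbar_Xa] at h0
  have := congrFun h0 0
  rw [Pi.smul_apply, Pi.single_eq_same, smul_eq_mul, mul_one] at this
  exact this.symm

theorem actR_psi {ω : K} (hω : ω ^ 3 = 1) (χ : Var ι → ZMod 3) (q : Pg K e) :
    actR M hω χ (psi M Sp q) = psi M Sp q := by
  have : (actR M hω χ).comp (psi M Sp) = psi M Sp := by
    apply MvPolynomial.algHom_ext
    rintro ⟨b, i⟩
    rw [AlgHom.comp_apply]
    unfold psi
    rw [aeval_X, actR_mk]
    congr 1
    rw [map_sum]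
    refine Finset.sum_congr rfl fun c _ => ?_
    rw [map_mul, map_pow]
    unfold act
    rw [aeval_X, algHom_C]
    have h1 : (ω ^ (χ ⟨b, c⟩).val) ^ 3 = 1 := by
      rw [← pow_mul, mul_comm, pow_mul, hω, one_pow]
    rw [mul_pow, ← C_pow, h1, C_1, one_mul]
    rfl
  exact congrArg (fun f => f q) this

include Sp in
/-- `R` is integrally closed, given the splittings. -/
theorem isIntegrallyClosed_of_split [CharZero K] [IsAlgClosed K] (hM : ∀ b, AllMinors (M b))
    (hc : ∀ b, r b + 2 ≤ Fintype.card (ι b)) : IsIntegrallyClosed (Rg M) := by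
  classical
  obtain ⟨ω, hω⟩ := exists_primitive K
  have h3 := hω.pow_eq_one
  have := isDomain_of_split M Sp hM hc
  let _ : Algebra (Pg K e) (Rg M) := (psi M Sp).toRingHom.toAlgebra
  have : IsScalarTower K (Pg K e) (Rg M) := by
    refine IsScalarTower.of_algebraMap_eq fun c => ?_
    exact ((psi M Sp).commutes c).symm
  let actP : Var ι → Rg M →ₐ[Pg K e] Rg M := fun v =>
    { (actR M h3 (Pi.single v 1)).toRingHom with
      commutes' := fun q => actR_psi M Sp h3 _ q }
  have hact : ∀ v (y : Rg M), actP v y = actR M h3 (Pi.single v 1) y := fun _ _ => rfl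
  refine isIntegrallyClosed_of_cubeRoots (K := K) (P := Pg K e) ω hω (ell M Sp) ?_ ?_
    (fun v => Ideal.Quotient.mk (idl M) (X v)) ?_ (psi_injective M Sp) ?_ actP ?_ ?_
  · intro v
    rw [ell_eq_lf]
    exact prime_lf (lam_ne_zero M Sp hM hc v)
  · intro v w hvw h
    rw [ell_eq_lf, ell_eq_lf] at h
    obtain ⟨c, hc'⟩ := proportional_of_dvd (lam_ne_zero M Sp hM hc v)
      (lam_ne_zero M Sp hM hc w) h
    exact lam_pair M Sp hM hc v w hvw c hc'
  · intro v
    rw [← map_pow]
    exact mk_X_pow M Sp v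
  · intro y
    obtain ⟨p, hp⟩ := gen_all M Sp y
    refine ⟨p, hp.trans ?_⟩
    unfold comb
    refine Finset.sum_congr rfl fun a _ => ?_
    congr 1
    unfold Pool.Agent.T9h29.NA.Xa
    rw [map_prod]
    simp_rw [map_pow]
  · intro v
    rw [hact, actR_mk]
    unfold act
    rw [aeval_X, Pi.single_eq_same, map_mul]
    have : (1 : ZMod 3).val = 1 := rfl
    rw [this, pow_one]
    rfl
  · intro v u huv
    rw [hact, actR_mk]
    unfold act
    rw [aeval_X, Pi.single_eq_of_ne huv, ZMod.val_zero, pow_zero, C_1, one_mul]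

/-- [N] The coordinate ring of the product of the cones is integrally closed. -/
theorem isIntegrallyClosed_Rg [CharZero K] [IsAlgClosed K]
    (M : ∀ b, Matrix (Fin (r b)) (ι b) K) (hM : ∀ b, AllMinors (M b))
    (hc : ∀ b, Fintype.card (ι b) = 3 * r b + 1) (hr : ∀ b, 1 ≤ r b) :
    IsIntegrallyClosed (Rg M) := by
  have h : ∀ b, Nonempty (Split (e := 2 * r b) (M b)) := fun b =>
    exists_split (M b) (hM b) (by rw [hc]; ring)
  exact isIntegrallyClosed_of_split M (fun b => (h b).some) hM fun b => by
    have := hc b; have := hr b; omega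

end general

/-- A retract of an integrally closed domain is integrally closed. -/
theorem isIntegrallyClosed_of_retract {S R : Type*} [CommRing S] [CommRing R] [IsDomain S]
    [IsDomain R] [Algebra S R] (hinj : Function.Injective (algebraMap S R))
    (ρ : R →ₗ[S] S) (hρ : ∀ s : S, ρ (algebraMap S R s) = s) [IsIntegrallyClosed R] :
    IsIntegrallyClosed S := by
  have hRL : Function.Injective (algebraMap R (FractionRing R)) :=
    IsFractionRing.injective R (FractionRing R)
  have hg : Function.Injective ((algebraMap R (FractionRing R)).comp (algebraMap S R)) :=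
    hRL.comp hinj
  obtain ⟨f, hf⟩ : ∃ f : FractionRing S →+* FractionRing R,
      ∀ s : S, f (algebraMap S (FractionRing S) s)
        = algebraMap R (FractionRing R) (algebraMap S R s) :=
    ⟨IsFractionRing.lift hg, fun s => IsFractionRing.lift_algebraMap hg s⟩
  rw [isIntegrallyClosed_iff (FractionRing S)]
  intro x hx
  have hfx : IsIntegral R (f x) := by
    refine hx.map_of_comp_eq (algebraMap S R) f ?_
    ext s
    exact (hf s).symm
  obtain ⟨y, hy⟩ := IsIntegrallyClosed.isIntegral_iff.1 hfx
  obtain ⟨a, b, hb, rfl⟩ := IsFractionRing.div_surjective (A := S) x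
  have hb0 : b ≠ 0 := nonZeroDivisors.ne_zero hb
  have hbS : algebraMap S (FractionRing S) b ≠ 0 := fun h =>
    hb0 (IsFractionRing.injective S (FractionRing S) (by rw [h, map_zero]))
  have hbR : algebraMap R (FractionRing R) (algebraMap S R b) ≠ 0 := fun h =>
    hb0 (hinj (hRL (by rw [h, map_zero, map_zero])))
  rw [map_div₀, hf, hf, eq_div_iff hbR, ← map_mul] at hy
  have h1 : algebraMap S R a = algebraMap S R b * y := by
    rw [← hRL hy, mul_comm]
  refine ⟨ρ y, ?_⟩
  rw [eq_div_iff hbS, ← map_mul]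
  congr 1
  rw [← hρ a, h1, ← Algebra.smul_def, map_smul, smul_eq_mul, mul_comm]

section stot

variable {K : Type u} [Field K] {B : Type} [Fintype B] [DecidableEq B] {ι : B → Type}
  [∀ b, Fintype (ι b)] [∀ b, DecidableEq (ι b)] {r : B → ℕ}

/-- [N] The ring `S` is integrally closed. -/
theorem isIntegrallyClosed_Stot [CharZero K] [IsAlgClosed K] {A : Type*} [AddCommGroup A]
    (w : Var ι → A) (hw : ∀ v, 3 • w v = 0)
    (M : ∀ b, Matrix (Fin (r b)) (ι b) K) (hM : ∀ b, AllMinors (M b))
    (hc : ∀ b, Fintype.card (ι b) = 3 * r b + 1) (hr : ∀ b, 1 ≤ r b) :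
    IsIntegrallyClosed (Stot M w) := by
  have := isDomain_Rg M hM hc hr
  have := isIntegrallyClosed_Rg M hM hc hr
  obtain ⟨ρ, hρ⟩ := Pool.Agent.T9h82.NA.exists_retraction w hw M
  exact isIntegrallyClosed_of_retract (S := Stot M w) (R := Rg M) Subtype.coe_injective ρ hρ

end stot

end Pool.Agent.T9h8.NA
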