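import Pool.Agent.T9h46.NA.Dim
import Pool.Agent.T9h46.NA.Pair
import Pool.Agent.T9h31.NA.Facts

/-!
# Primes of height one of `S`: they exist, and none of them contains all the monomials
-/

namespace Pool.Agent.T9h8.NA

open MvPolynomial Pool.Agent.T9h29.NA

universe u

/-- A prime of height one of a domain does not contain a regular pair. -/
theorem false_of_pair {S : Type*} [CommRing S] [IsDomain S] {x y : S}
    (hpair : ∀ c, x ∣ y * c → x ∣ c) (hx0 : x ≠ 0) (p : Ideal S) [p.IsPrime]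
    (h1 : p.height = 1) (hx : x ∈ p) (hy : y ∈ p) : False := by
  obtain ⟨u, hu, n, hd⟩ := Pool.Agent.T9h46.NA.exists_pow_of_height_one p h1 hx hx0 hy
  have key : ∀ n : ℕ, x ∣ y ^ n * u → x ∣ u := by
    intro n
    induction n with
    | zero => intro h; simpa using h
    | succ n ih =>
      intro h
      refine ih (hpair _ ?_)
      rwa [← mul_assoc, ← pow_succ']
  exact hu (p.mem_of_dvd (key n hd) hx)

/-- A noetherian domain with a nonzero nonunit has a prime of height one. -/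
theorem exists_height_one {S : Type*} [CommRing S] [IsDomain S] [IsNoetherianRing S] (x : S)
    (hx0 : x ≠ 0) (hx : ¬ IsUnit x) : ∃ p : Ideal S, p.IsPrime ∧ p.height = 1 := by
  have hne : Ideal.span {x} ≠ ⊤ := by
    rwa [Ne, Ideal.span_singleton_eq_top]
  obtain ⟨p, hp⟩ := Ideal.nonempty_minimalPrimes hne
  have hprime := hp.isPrime
  refine ⟨p, hprime, le_antisymm
    (Ideal.height_le_one_of_isPrincipal_of_mem_minimalPrimes (Ideal.span {x}) p hp) ?_⟩
  rw [Order.one_le_iff_pos, pos_iff_ne_zero]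
  intro h0
  rw [Ideal.height_eq_zero_iff_eq_bot] at h0
  have : x ∈ p := hp.1.2 (Ideal.mem_span_singleton_self x)
  rw [h0, Ideal.mem_bot] at this
  exact hx0 this

section general

variable {K : Type u} [Field K] {B : Type} [Fintype B] [DecidableEq B] [Nonempty B] {ι : B → Type}
  [∀ b, Fintype (ι b)] [∀ b, DecidableEq (ι b)] {A : Type*} [AddCommGroup A] {r : B → ℕ}

omit [Nonempty B] in
/-- If a prime contains all monomials of degree `n` then it contains `S_n`. -/
theorem mem_of_mon (M : ∀ b, Matrix (Fin (r b)) (ι b) K) (w : Var ι → A) (p : Ideal (Stot M w))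
    (n : ℕ) (h : ∀ m, ∀ hm : m ∈ Good w n,
      (⟨Pool.Agent.T9h31.NA.mon M m, Pool.Agent.T9h31.NA.mon_mem M w hm⟩ : Stot M w) ∈ p)
    (y : Stot M w) (hy : y ∈ grS M w n) : y ∈ p := by
  classical
  obtain ⟨F, hF, hFy⟩ := hy
  have hF' : ∀ m ∈ F.support, m ∈ Good w n := fun m hm => hF hm
  -- the lift of each term
  have hsum : y = ∑ m ∈ F.support.attach, (coeff m.1 F) •
      (⟨Pool.Agent.T9h31.NA.mon M m.1,
        Pool.Agent.T9h31.NA.mon_mem M w (hF' m.1 m.2)⟩ : Stot M w) := by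
    apply Subtype.ext
    have h1 : (y : Rg M) = Ideal.Quotient.mk (idl M) F := hFy.symm
    rw [h1]
    conv_lhs => rw [F.as_sum, map_sum, ← Finset.sum_attach]
    rw [AddSubmonoidClass.coe_finsetSum]
    refine Finset.sum_congr rfl fun m _ => ?_
    rw [Subalgebra.coe_smul]
    show _ = coeff m.1 F • Ideal.Quotient.mk (idl M) (monomial m.1 1)
    have h2 : (monomial m.1 (coeff m.1 F) : MvPolynomial (Var ι) K)
        = coeff m.1 F • monomial m.1 1 := by
      rw [smul_monomial, smul_eq_mul, mul_one]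
    rw [h2]
    rfl
  rw [hsum]
  refine Ideal.sum_mem _ fun m _ => ?_
  rw [Algebra.smul_def]
  exact Ideal.mul_mem_left _ _ (h m.1 (hF' m.1 m.2))

/-- No prime of height one of `S` contains all monomials of positive degree. -/
theorem hbp (w : Var ι → A) (hw : ∀ v, 3 • w v = 0)
    (M : ∀ b, Matrix (Fin (r b)) (ι b) K) (hM : ∀ b, AllMinors (M b))
    (hc : ∀ b, Fintype.card (ι b) = 3 * r b + 1) (hr : ∀ b, 1 ≤ r b)
    (hsum : ∀ b, ∑ c, w ⟨b, c⟩ = 0) [IsDomain (Rg M)] (p : Ideal (Stot M w)) [p.IsPrime]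
    (hp : p.height = 1) :
    ∃ n, 0 < n ∧ ∃ m, ∃ hm : m ∈ Good w n,
      (⟨Pool.Agent.T9h31.NA.mon M m, Pool.Agent.T9h31.NA.mon_mem M w hm⟩ : Stot M w) ∉ p := by
  by_contra hcon
  push Not at hcon
  obtain ⟨_⟩ := Pool.Agent.T9h46.NA.exists_graded w hw M
  obtain ⟨θ, m, b, _, hθ, _, h, _⟩ := Pool.Agent.T9h75.NA.freeConcl w hw M hM hc hsum
    (Pool.Agent.T9h73.PP.segreData K fun b => 2 * r b) rfl
  have hmem : ∀ l, θ l ∈ p := fun l => mem_of_mon M w p 3 (fun m hm => hcon 3 (by norm_num) m hm)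
    _ (hθ l)
  have hd : 1 < ∑ b, 2 * r b + 1 := by
    obtain ⟨b0⟩ := ‹Nonempty B›
    have h1 : 2 * r b0 ≤ ∑ b, 2 * r b :=
      Finset.single_le_sum (f := fun b => 2 * r b) (fun _ _ => Nat.zero_le _) (Finset.mem_univ b0)
    have := hr b0
    omega
  refine false_of_pair (x := θ ⟨0, by omega⟩) (y := θ ⟨1, hd⟩)
    (fun c hc => Pool.Agent.T9h22.HS.pair_of_free θ b h (by simp) c hc) ?_ p hp (hmem _) (hmem _)
  intro h0
  have hinj := Pool.Agent.T9h22.HS.aeval_injective (K := K) θ b h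
  have : (MvPolynomial.X ⟨0, by omega⟩ : MvPolynomial (Fin (∑ b, 2 * r b + 1)) K) = 0 := by
    apply hinj
    simpa using h0
  exact MvPolynomial.X_ne_zero _ this

/-- `S` has a prime of height one. -/
theorem exists_height_one_Stot (w : Var ι → A) (hw : ∀ v, 3 • w v = 0)
    (M : ∀ b, Matrix (Fin (r b)) (ι b) K) (hM : ∀ b, AllMinors (M b))
    (hc : ∀ b, Fintype.card (ι b) = 3 * r b + 1)
    (hsum : ∀ b, ∑ c, w ⟨b, c⟩ = 0) [IsDomain (Rg M)] :
    ∃ p : Ideal (Stot M w), p.IsPrime ∧ p.height = 1 := by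
  have := Pool.Agent.T9h46.NA.noeth w hw M hM hc hsum
  obtain ⟨_⟩ := Pool.Agent.T9h46.NA.exists_graded w hw M
  obtain ⟨θ, m, b, _, hθ, _, h, _⟩ := Pool.Agent.T9h75.NA.freeConcl w hw M hM hc hsum
    (Pool.Agent.T9h73.PP.segreData K fun b => 2 * r b) rfl
  have h00 : θ 0 ≠ 0 := by
    intro h0
    have hinj := Pool.Agent.T9h22.HS.aeval_injective (K := K) θ b h
    have : (MvPolynomial.X 0 : MvPolynomial (Fin (∑ b, 2 * r b + 1)) K) = 0 := by
      apply hinj
      simpa using h0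
    exact MvPolynomial.X_ne_zero _ this
  refine exists_height_one (θ 0) h00 ?_
  intro hu
  -- a unit would lie in the irrelevant ideal
  have hmem : θ 0 ∈ (HomogeneousIdeal.irrelevant (grS M w)).toIdeal :=
    HomogeneousIdeal.mem_irrelevant_of_mem (grS M w) (by norm_num : 0 < 3) (hθ 0)
  have htop : (HomogeneousIdeal.irrelevant (grS M w)).toIdeal = ⊤ :=
    Ideal.eq_top_of_isUnit_mem _ hmem hu
  have h1 : (1 : Stot M w) ∈ HomogeneousIdeal.irrelevant (grS M w) := by
    have h2 : (1 : Stot M w) ∈ (HomogeneousIdeal.irrelevant (grS M w)).toIdeal := by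
      rw [htop]; exact Submodule.mem_top
    exact h2
  rw [HomogeneousIdeal.mem_irrelevant_iff, GradedRing.proj_apply,
    DirectSum.decompose_of_mem_same _ (SetLike.GradedOne.one_mem (A := grS M w))] at h1
  exact one_ne_zero h1

end general

section concrete

variable {K : Type u} [Field K]

/-- The concrete ring: no prime of height one contains all monomials of positive degree. -/
theorem hbp_wG [CharZero K] [IsAlgClosed K] (M : ∀ b, Matrix (Fin (rk b)) (Crd b) K)
    (hM : ∀ b, AllMinors (M b)) (p : Ideal (Stot M wG)) [p.IsPrime] (hp : p.height = 1) :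
    ∃ n, 0 < n ∧ ∃ m, ∃ hm : m ∈ Good wG n,
      (⟨Pool.Agent.T9h31.NA.mon M m, Pool.Agent.T9h31.NA.mon_mem M wG hm⟩ : Stot M wG) ∉ p := by
  have := isDomain_Rg M hM Pool.Agent.T9h19.NA.card_Crd Pool.Agent.T9h46.NA.one_le_rk
  exact hbp wG Pool.Agent.T9h19.NA.wG_three M hM Pool.Agent.T9h19.NA.card_Crd
    Pool.Agent.T9h46.NA.one_le_rk Pool.Agent.T9h75.NA.sum_wG p hp

theorem exists_height_one_wG [CharZero K] [IsAlgClosed K]
    (M : ∀ b, Matrix (Fin (rk b)) (Crd b) K) (hM : ∀ b, AllMinors (M b)) :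
    ∃ p : Ideal (Stot M wG), p.IsPrime ∧ p.height = 1 := by
  have := isDomain_Rg M hM Pool.Agent.T9h19.NA.card_Crd Pool.Agent.T9h46.NA.one_le_rk
  exact exists_height_one_Stot wG Pool.Agent.T9h19.NA.wG_three M hM
    Pool.Agent.T9h19.NA.card_Crd Pool.Agent.T9h75.NA.sum_wG

end concrete

end Pool.Agent.T9h8.NA
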