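import Pool.Agent.T9h8.NA.Domain

/-!
# Existence of splittings; the ring `R` is a domain
-/

namespace Pool.Agent.T9h8.NA

open MvPolynomial Pool.Agent.T9h29.NA

universe u

/-- A matrix with all maximal minors nonzero (and at least as many columns as rows) has a
splitting. -/
theorem exists_split {K : Type u} [Field K] {r e : ℕ} {κ : Type} [Fintype κ] [DecidableEq κ]
    (M : Matrix (Fin r) κ K) (hM : AllMinors M) (hc : Fintype.card κ = r + (e + 1)) :
    Nonempty (Split (e := e) M) := by
  classical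
  have hcard : Fintype.card κ = Fintype.card (Fin r ⊕ Fin (e + 1)) := by
    rw [hc, Fintype.card_sum, Fintype.card_fin, Fintype.card_fin]
  let eq : κ ≃ Fin r ⊕ Fin (e + 1) := Fintype.equivOfCardEq hcard
  -- the two parts of the matrix
  let A : Matrix (Fin r) (Fin r) K := M.submatrix id fun i => eq.symm (Sum.inl i)
  let N : Matrix (Fin r) (Fin (e + 1)) K := M.submatrix id fun i => eq.symm (Sum.inr i)
  have hA : IsUnit A.det := by
    refine isUnit_iff_ne_zero.2 (hM _ ?_)
    exact eq.symm.injective.comp Sum.inl_injective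
  have hMeq : M = (Matrix.fromCols A N).submatrix id eq := by
    ext i c
    rw [Matrix.submatrix_apply]
    rcases h : eq c with j | j
    · rw [Matrix.fromCols_apply_inl]
      show M i c = M i (eq.symm (Sum.inl j))
      rw [← h, Equiv.symm_apply_apply]
    · rw [Matrix.fromCols_apply_inr]
      show M i c = M i (eq.symm (Sum.inr j))
      rw [← h, Equiv.symm_apply_apply]
  refine ⟨⟨(Matrix.fromRows (-(A⁻¹ * N)) 1).submatrix eq id,
    (Matrix.fromCols 0 1).submatrix id eq, (Matrix.fromRows A⁻¹ 0).submatrix eq id, ?_, ?_, ?_⟩⟩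
  · rw [hMeq, Matrix.submatrix_mul_equiv, Matrix.fromCols_mul_fromRows, Matrix.mul_neg,
      ← Matrix.mul_assoc, Matrix.mul_nonsing_inv _ hA, Matrix.one_mul, Matrix.mul_one]
    simp
  · rw [Matrix.submatrix_mul_equiv, Matrix.fromCols_mul_fromRows]
    simp
  · have h1 : ((Matrix.fromRows (-(A⁻¹ * N)) 1).submatrix eq id *
        ((Matrix.fromCols 0 1).submatrix id eq : Matrix (Fin (e + 1)) κ K) : Matrix κ κ K)
        = (Matrix.fromBlocks 0 (-(A⁻¹ * N)) 0 1 : Matrix (Fin r ⊕ Fin (e + 1))
            (Fin r ⊕ Fin (e + 1)) K).submatrix eq eq := by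
      rw [← Matrix.submatrix_mul _ _ _ _ _ Function.bijective_id]
      rw [Matrix.fromRows_mul_fromCols]
      simp
    have h2 : ((Matrix.fromRows A⁻¹ 0).submatrix eq id * M : Matrix κ κ K)
        = (Matrix.fromBlocks 1 (A⁻¹ * N) 0 0 : Matrix (Fin r ⊕ Fin (e + 1))
            (Fin r ⊕ Fin (e + 1)) K).submatrix eq eq := by
      rw [hMeq, ← Matrix.submatrix_mul _ _ _ _ _ Function.bijective_id]
      rw [Matrix.fromRows_mul_fromCols, Matrix.nonsing_inv_mul _ hA]
      simp
    have h3 : (1 : Matrix κ κ K) = (1 : Matrix (Fin r ⊕ Fin (e + 1)) (Fin r ⊕ Fin (e + 1))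
        K).submatrix eq eq := (Matrix.submatrix_one_equiv eq).symm
    have h4 : ∀ X Y : Matrix (Fin r ⊕ Fin (e + 1)) (Fin r ⊕ Fin (e + 1)) K,
        X.submatrix eq eq - Y.submatrix eq eq = (X - Y).submatrix eq eq := fun _ _ => rfl
    rw [h1, h2, h3, h4]
    congr 1
    rw [← Matrix.fromBlocks_one, sub_eq_add_neg, Matrix.fromBlocks_neg, Matrix.fromBlocks_add]
    simp

/-- (5) The coordinate ring of the product of the cones is a domain. -/
theorem isDomain_Rg {K : Type u} [Field K] {B : Type} [Fintype B] [DecidableEq B]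
    {ι : B → Type} [∀ b, Fintype (ι b)] [∀ b, DecidableEq (ι b)] {r : B → ℕ}
    [CharZero K] [IsAlgClosed K] (M : ∀ b, Matrix (Fin (r b)) (ι b) K)
    (hM : ∀ b, AllMinors (M b)) (hc : ∀ b, Fintype.card (ι b) = 3 * r b + 1)
    (hr : ∀ b, 1 ≤ r b) : IsDomain (Rg M) := by
  have h : ∀ b, Nonempty (Split (e := 2 * r b) (M b)) := fun b =>
    exists_split (M b) (hM b) (by rw [hc]; ring)
  exact isDomain_of_split M (fun b => (h b).some) hM fun b => by
    have := hc b; have := hr b; omega

end Pool.Agent.T9h8.NA
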